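import Mathlib

set_option autoImplicit false

open Set Filter Topology Metric

namespace Helper853.Mid

variable {n : ℕ}

/-- Hull of `K` with respect to the entire functions on `ℂⁿ`. -/
def hull (K : Set (Fin n → ℂ)) : Set (Fin n → ℂ) :=
  {z | ∀ f : (Fin n → ℂ) → ℂ, Differentiable ℂ f → ∀ c : ℝ, (∀ w ∈ K, ‖f w‖ ≤ c) → ‖f z‖ ≤ c}

/-- Union of the hulls of the compact subsets of `W`. -/
def hat (W : Set (Fin n → ℂ)) : Set (Fin n → ℂ) :=
  {x | ∃ K : Set (Fin n → ℂ), IsCompact K ∧ K ⊆ W ∧ x ∈ hull K}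

theorem subset_hull (K : Set (Fin n → ℂ)) : K ⊆ hull K :=
  fun z hz _ _ _ hc => hc z hz

theorem hull_mono {K L : Set (Fin n → ℂ)} (h : K ⊆ L) : hull K ⊆ hull L :=
  fun _ hz f hf c hc => hz f hf c (fun w hw => hc w (h hw))

theorem hull_subset_of {K M : Set (Fin n → ℂ)} (h : K ⊆ hull M) : hull K ⊆ hull M :=
  fun _ hz f hf c hc => hz f hf c (fun w hw => h hw f hf c hc)

theorem isClosed_hull (K : Set (Fin n → ℂ)) : IsClosed (hull K) := by
  have : hull K = ⋂ (f : (Fin n → ℂ) → ℂ) (_ : Differentiable ℂ f) (c : ℝ)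
      (_ : ∀ w ∈ K, ‖f w‖ ≤ c), {z | ‖f z‖ ≤ c} := by
    ext z
    simp [hull]
  rw [this]
  refine isClosed_iInter fun f => isClosed_iInter fun hf => isClosed_iInter fun c =>
    isClosed_iInter fun _ => ?_
  exact isClosed_le hf.continuous.norm continuous_const

theorem isCompact_hull {K : Set (Fin n → ℂ)} (hK : IsCompact K) : IsCompact (hull K) := by
  obtain ⟨R, hR⟩ := hK.isBounded.subset_closedBall 0
  have hsub : hull K ⊆ closedBall (0 : Fin n → ℂ) (max R 0) := by
    intro z hz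
    rw [mem_closedBall_zero_iff, pi_norm_le_iff_of_nonneg (le_max_right _ _)]
    intro i
    refine hz (fun z => z i) (by fun_prop) _ ?_
    intro w hw
    have h1 := hR hw
    rw [mem_closedBall_zero_iff] at h1
    exact (norm_le_pi_norm w i).trans (h1.trans (le_max_left _ _))
  exact (isCompact_closedBall _ _).of_isClosed_subset (isClosed_hull K) hsub

theorem add_mem_hull {K : Set (Fin n → ℂ)} {x v : Fin n → ℂ} (hx : x ∈ hull K)
    {L : Set (Fin n → ℂ)} (hL : ∀ w ∈ K, w + v ∈ L) : x + v ∈ hull L := by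
  intro f hf c hc
  exact hx (fun z => f (z + v)) (by fun_prop) c (fun w hw => hc _ (hL w hw))

theorem subset_hat (W : Set (Fin n → ℂ)) : W ⊆ hat W := by
  intro x hx
  exact ⟨{x}, isCompact_singleton, by simpa using hx, subset_hull _ rfl⟩

/-- quantitative openness -/
theorem ball_subset_hull {W K : Set (Fin n → ℂ)} (hW : IsOpen W) (hK : IsCompact K) (hKW : K ⊆ W) :
    ∃ δ > 0, ∃ L : Set (Fin n → ℂ), IsCompact L ∧ L ⊆ W ∧
      ∀ x ∈ hull K, ball x δ ⊆ hull L := by
  obtain ⟨δ, hδ, hsub⟩ := hK.exists_cthickening_subset_open hW hKW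
  refine ⟨δ, hδ, cthickening δ K, hK.cthickening, hsub, ?_⟩
  intro x hx y hy
  have h := add_mem_hull (v := y - x) hx (L := cthickening δ K) ?_
  · simpa using h
  · intro w hw
    refine mem_cthickening_of_dist_le (w + (y - x)) w δ K hw ?_
    rw [dist_eq_norm]
    simp only [add_sub_cancel_left]
    rw [mem_ball, dist_eq_norm] at hy
    exact hy.le

theorem isOpen_hat {W : Set (Fin n → ℂ)} (hW : IsOpen W) : IsOpen (hat W) := by
  rw [Metric.isOpen_iff]
  rintro x ⟨K, hK, hKW, hx⟩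
  obtain ⟨δ, hδ, L, hL, hLW, h⟩ := ball_subset_hull hW hK hKW
  exact ⟨δ, hδ, fun y hy => ⟨L, hL, hLW, h x hx hy⟩⟩

theorem exists_compact_hull {W K : Set (Fin n → ℂ)} (hW : IsOpen W) (hK : IsCompact K)
    (hKW : K ⊆ hat W) : ∃ M : Set (Fin n → ℂ), IsCompact M ∧ M ⊆ W ∧ K ⊆ hull M := by
  refine hK.induction_on (p := fun S => ∃ M : Set (Fin n → ℂ), IsCompact M ∧ M ⊆ W ∧ S ⊆ hull M)
    ⟨∅, isCompact_empty, empty_subset _, empty_subset _⟩ ?_ ?_ ?_
  · rintro s t hst ⟨M, hM, hMW, h⟩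
    exact ⟨M, hM, hMW, hst.trans h⟩
  · rintro s t ⟨M, hM, hMW, h⟩ ⟨N, hN, hNW, h'⟩
    exact ⟨M ∪ N, hM.union hN, union_subset hMW hNW,
      union_subset (h.trans (hull_mono subset_union_left)) (h'.trans (hull_mono subset_union_right))⟩
  · intro x hx
    obtain ⟨L, hL, hLW, hxL⟩ := hKW hx
    obtain ⟨δ, hδ, M, hM, hMW, h⟩ := ball_subset_hull hW hL hLW
    exact ⟨ball x δ, mem_nhdsWithin_of_mem_nhds (ball_mem_nhds x hδ), M, hM, hMW, h x hxL⟩

theorem isOpen_diff_component {U : Set (Fin n → ℂ)} (hU : IsOpen U) (p : Fin n → ℂ) :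
    IsOpen (U \ connectedComponentIn U p) := by
  rw [isOpen_iff_mem_nhds]
  rintro y ⟨hy, hyp⟩
  have h1 : connectedComponentIn U y ∈ 𝓝 y :=
    hU.connectedComponentIn.mem_nhds (mem_connectedComponentIn hy)
  refine Filter.mem_of_superset h1 ?_
  intro z hz
  refine ⟨connectedComponentIn_subset _ _ hz, fun hz' => hyp ?_⟩
  have e1 := connectedComponentIn_eq hz
  have e2 := connectedComponentIn_eq hz'
  rw [e2, ← e1]
  exact mem_connectedComponentIn hy

/-- A component of `hat W` is holomorphically convex. -/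
theorem holoConvex_component {W : Set (Fin n → ℂ)} (hW : IsOpen W) (p : Fin n → ℂ)
    (K : Set (Fin n → ℂ)) (hK : IsCompact K) (hKD : K ⊆ connectedComponentIn (hat W) p) :
    IsCompact {z | z ∈ connectedComponentIn (hat W) p ∧ ∀ f : (Fin n → ℂ) → ℂ,
      DifferentiableOn ℂ f (connectedComponentIn (hat W) p) →
        ∀ c : ℝ, (∀ w ∈ K, ‖f w‖ ≤ c) → ‖f z‖ ≤ c} := by
  set D := connectedComponentIn (hat W) p with hD
  have hDH : D ⊆ hat W := connectedComponentIn_subset _ _
  have hDo : IsOpen D := (isOpen_hat hW).connectedComponentIn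
  obtain ⟨M, hM, hMW, hKM⟩ := exists_compact_hull hW hK (hKD.trans hDH)
  have hMH : hull M ⊆ hat W := fun z hz => ⟨M, hM, hMW, hz⟩
  have hT : IsCompact (hull M ∩ D) := by
    have e : hull M ∩ D = hull M \ (hat W \ D) := by
      ext z
      constructor
      · rintro ⟨h1, h2⟩
        exact ⟨h1, fun h => h.2 h2⟩
      · rintro ⟨h1, h2⟩
        refine ⟨h1, ?_⟩
        by_contra h3
        exact h2 ⟨hMH h1, h3⟩
    rw [e]
    exact (isCompact_hull hM).diff (isOpen_diff_component (isOpen_hat hW) p)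
  refine hT.of_isClosed_subset ?_ ?_
  · refine isClosed_of_closure_subset ?_
    intro z hz
    have hsub : {z | z ∈ D ∧ ∀ f : (Fin n → ℂ) → ℂ, DifferentiableOn ℂ f D →
        ∀ c : ℝ, (∀ w ∈ K, ‖f w‖ ≤ c) → ‖f z‖ ≤ c} ⊆ hull M ∩ D := by
      rintro y ⟨hy, hyf⟩
      refine ⟨fun f hf c hc => hyf f hf.differentiableOn c (fun w hw => hKM hw f hf c hc), hy⟩
    have hzT : z ∈ hull M ∩ D := closure_minimal hsub hT.isClosed hz
    refine ⟨hzT.2, fun f hf c hc => ?_⟩
    have hcont : ContinuousAt f z := (hf.continuousOn.continuousAt (hDo.mem_nhds hzT.2))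
    by_contra hlt
    push_neg at hlt
    have hev : ∀ᶠ y in 𝓝 z, c < ‖f y‖ := (hcont.norm).eventually (lt_mem_nhds hlt)
    have hfr := mem_closure_iff_frequently.1 hz
    obtain ⟨y, hy1, hy2⟩ := (hfr.and_eventually hev).exists
    exact absurd (hy1.2 f hf c hc) (not_le.2 hy2)
  · rintro y ⟨hy, hyf⟩
    exact ⟨fun f hf c hc => hyf f hf.differentiableOn c (fun w hw => hKM hw f hf c hc), hy⟩

/-- Main step: a connected proper open set whose hull is not everything lies in a strictly larger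
proper holomorphically convex domain. -/
theorem intermediate {Ω : Set (Fin n → ℂ)} (ho : IsOpen Ω) (hc : IsConnected Ω)
    (hx : ∃ x : Fin n → ℂ, x ∉ hat Ω) :
    ∃ Ω' : Set (Fin n → ℂ), IsOpen Ω' ∧ IsConnected Ω' ∧ Ω ⊂ Ω' ∧ Ω' ≠ Set.univ ∧
        ∀ K : Set (Fin n → ℂ), IsCompact K → K ⊆ Ω' →
          IsCompact {z | z ∈ Ω' ∧ ∀ f : (Fin n → ℂ) → ℂ, DifferentiableOn ℂ f Ω' →
            ∀ c : ℝ, (∀ w ∈ K, ‖f w‖ ≤ c) → ‖f z‖ ≤ c} := by
  obtain ⟨x, hx⟩ := hx
  obtain ⟨p0, hp0⟩ := hc.nonempty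
  have hΩH := subset_hat Ω
  have hsub0 : Ω ⊆ connectedComponentIn (hat Ω) p0 :=
    hc.isPreconnected.subset_connectedComponentIn hp0 hΩH
  by_cases h0 : connectedComponentIn (hat Ω) p0 = Ω
  · -- the second case: add a ball
    have hne : Ω ≠ Set.univ := by
      intro h
      exact hx (hΩH (h ▸ mem_univ x))
    have hfr : (frontier Ω).Nonempty := nonempty_frontier_iff.2 ⟨⟨p0, hp0⟩, hne⟩
    obtain ⟨x1, hx1⟩ := hfr
    have hx1c : x1 ∈ closure Ω := hx1.1
    have hx1n : x1 ∉ Ω := by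
      have := hx1.2
      rwa [ho.interior_eq] at this
    have hx1H : x1 ∉ hat Ω := by
      intro h
      have hN : connectedComponentIn (hat Ω) x1 ∈ 𝓝 x1 :=
        (isOpen_hat ho).connectedComponentIn.mem_nhds (mem_connectedComponentIn h)
      obtain ⟨y, hy1, hy2⟩ := mem_closure_iff_nhds.1 hx1c _ hN
      have e1 := connectedComponentIn_eq hy1
      rw [← h0] at hy2
      have e2 := connectedComponentIn_eq hy2
      apply hx1n
      rw [← h0, e2, ← e1]
      exact mem_connectedComponentIn h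
    set W : Set (Fin n → ℂ) := Ω ∪ ball x1 1 with hWdef
    have hWo : IsOpen W := ho.union isOpen_ball
    have hint : (Ω ∩ ball x1 1).Nonempty := by
      obtain ⟨y, hy1, hy2⟩ := mem_closure_iff_nhds.1 hx1c _ (ball_mem_nhds x1 one_pos)
      exact ⟨y, hy2, hy1⟩
    have hWc : IsConnected W := IsConnected.union hint hc (isConnected_ball one_pos)
    have hp0W : p0 ∈ W := Or.inl hp0
    have hWsub : W ⊆ connectedComponentIn (hat W) p0 :=
      hWc.isPreconnected.subset_connectedComponentIn hp0W (subset_hat W)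
    refine ⟨connectedComponentIn (hat W) p0, (isOpen_hat hWo).connectedComponentIn,
      isConnected_connectedComponentIn_iff.2 (subset_hat W hp0W), ?_, ?_, ?_⟩
    · refine ⟨subset_union_left.trans hWsub, fun h => hx1n (h (hWsub (Or.inr ?_)))⟩
      exact mem_ball_self one_pos
    · intro huniv
      have hH : hat W = Set.univ := by
        refine eq_univ_of_univ_subset ?_
        rw [← huniv]
        exact connectedComponentIn_subset _ _
      obtain ⟨M, hM, hMW, hMh⟩ := exists_compact_hull (K := closedBall (0 : Fin n → ℂ) (‖x1‖ + 2))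
        hWo (isCompact_closedBall _ _) (by rw [hH]; exact subset_univ _)
      obtain ⟨M1, M2, hM1, hM2, hM1Ω, hM2b, hMM⟩ := hM.binary_compact_cover ho isOpen_ball hMW
      have hM1' : IsCompact (insert p0 M1) := hM1.insert p0
      have hM1Ω' : insert p0 M1 ⊆ Ω := insert_subset hp0 hM1Ω
      have hnot : x1 ∉ hull (insert p0 M1) := fun h => hx1H ⟨_, hM1', hM1Ω', h⟩
      simp only [hull, mem_setOf_eq, not_forall] at hnot
      obtain ⟨f, hf, c, hfc, hlt⟩ := hnot
      push_neg at hlt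
      obtain ⟨y, hy, hymax⟩ := (isCompact_closedBall x1 1).exists_isMaxOn
        ⟨x1, mem_closedBall_self zero_le_one⟩ hf.continuous.norm.continuousOn
      have hm : c < ‖f y‖ := lt_of_lt_of_le hlt (hymax (mem_closedBall_self zero_le_one))
      have hball : ∀ z ∈ closedBall (0 : Fin n → ℂ) (‖x1‖ + 2), ‖f z‖ ≤ ‖f y‖ := by
        intro z hz
        refine hMh hz f hf _ ?_
        intro w hw
        rw [hMM] at hw
        rcases hw with hw | hw
        · exact (hfc w (mem_insert_of_mem _ hw)).trans hm.le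
        · exact hymax (ball_subset_closedBall (hM2b hw))
      have hyin : y ∈ ball (0 : Fin n → ℂ) (‖x1‖ + 2) := by
        rw [mem_ball_zero_iff]
        rw [mem_closedBall, dist_eq_norm] at hy
        calc ‖y‖ = ‖x1 + (y - x1)‖ := by congr 1; abel
          _ ≤ ‖x1‖ + ‖y - x1‖ := norm_add_le _ _
          _ < ‖x1‖ + 2 := by linarith
      have hloc : IsLocalMax (norm ∘ f) y := by
        filter_upwards [isOpen_ball.mem_nhds hyin] with z hz
        exact hball z (ball_subset_closedBall hz)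
      have hev : ∀ᶠ z in 𝓝 y, f z = f y :=
        Complex.eventually_eq_of_isLocalMax_norm (Eventually.of_forall fun z => hf z) hloc
      -- restrict to the line through y and p0
      set g : ℂ → ℂ := fun t => f (y + t • (p0 - y)) with hg
      have hgd : Differentiable ℂ g := by
        intro t
        have : DifferentiableAt ℂ (fun t : ℂ => y + t • (p0 - y)) t := by fun_prop
        exact (hf _).comp t this
      have hgan : AnalyticOnNhd ℂ g Set.univ := hgd.differentiableOn.analyticOnNhd isOpen_univ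
      have hcan : AnalyticOnNhd ℂ (fun _ : ℂ => f y) Set.univ := analyticOnNhd_const
      have hgev : g =ᶠ[𝓝 0] fun _ => f y := by
        have hcont : Tendsto (fun t : ℂ => y + t • (p0 - y)) (𝓝 0) (𝓝 y) := by
          have : Continuous (fun t : ℂ => y + t • (p0 - y)) := by fun_prop
          have h := this.tendsto 0
          simpa using h
        exact hcont.eventually hev
      have hgeq : g = fun _ => f y := hgan.eq_of_eventuallyEq hcan hgev
      have h1 : f p0 = f y := by
        have := congrFun hgeq 1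
        simpa [hg] using this
      have h2 : ‖f p0‖ ≤ c := hfc p0 (mem_insert _ _)
      rw [h1] at h2
      exact absurd h2 (not_le.2 hm)
    · exact holoConvex_component hWo p0
  · refine ⟨connectedComponentIn (hat Ω) p0, (isOpen_hat ho).connectedComponentIn,
      isConnected_connectedComponentIn_iff.2 (hΩH hp0), ?_, ?_, ?_⟩
    · exact ⟨hsub0, fun h => h0 (Subset.antisymm h hsub0)⟩
    · intro h
      exact hx (connectedComponentIn_subset _ _ (h ▸ mem_univ x))
    · exact holoConvex_component ho p0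

/-- For a Fatou-Bieberbach domain which is Runge in `ℂⁿ` no boundary point lies in the hull of a
compact subset. -/
theorem runge_hat {Ω : Set (Fin n → ℂ)} (ho : IsOpen Ω)
    (F G : (Fin n → ℂ) → (Fin n → ℂ)) (hF : Differentiable ℂ F) (hG : DifferentiableOn ℂ G Ω)
    (hr : Set.range F = Ω) (hGF : ∀ z, G (F z) = z) (hne : Ω ≠ Set.univ)
    (hR : ∀ g : (Fin n → ℂ) → ℂ, DifferentiableOn ℂ g Ω → ∀ K : Set (Fin n → ℂ), IsCompact K →
      K ⊆ Ω → ∀ ε : ℝ, 0 < ε → ∃ f : (Fin n → ℂ) → ℂ, Differentiable ℂ f ∧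
        ∀ z ∈ K, ‖f z - g z‖ < ε) :
    ∃ x : Fin n → ℂ, x ∉ hat Ω := by
  have hnonempty : Ω.Nonempty := ⟨F 0, hr ▸ mem_range_self 0⟩
  obtain ⟨x, hx⟩ := nonempty_frontier_iff.2 ⟨hnonempty, hne⟩
  have hxc : x ∈ closure Ω := hx.1
  have hxn : x ∉ Ω := by
    have := hx.2
    rwa [ho.interior_eq] at this
  refine ⟨x, ?_⟩
  rintro ⟨K, hK, hKΩ, hxK⟩
  obtain ⟨δ, hδ, L, hL, hLΩ, hball⟩ := ball_subset_hull ho hK hKΩ
  obtain ⟨C, hC⟩ := (hL.image_of_continuousOn (hG.continuousOn.mono hLΩ)).isBounded.exists_norm_le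
  have hbound : ∀ y ∈ Ω, y ∈ ball x δ → ‖G y‖ ≤ max C 0 := by
    intro y hyΩ hyb
    have hyL : y ∈ hull L := hball x hxK hyb
    rw [pi_norm_le_iff_of_nonneg (le_max_right _ _)]
    intro i
    refine le_of_forall_pos_le_add fun ε hε => ?_
    have hgi : DifferentiableOn ℂ (fun z => G z i) Ω := by
      intro z hz
      exact (differentiableWithinAt_pi.1 (hG z hz)) i
    obtain ⟨f, hf, hfe⟩ := hR _ hgi (insert y L) (hL.insert y) (insert_subset hyΩ hLΩ) (ε / 2)
      (by positivity)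
    have h1 : ‖f y‖ ≤ max C 0 + ε / 2 := by
      refine hyL f hf _ ?_
      intro w hw
      have h2 := hfe w (mem_insert_of_mem _ hw)
      have h3 : ‖G w‖ ≤ C := hC _ (mem_image_of_mem _ hw)
      have h4 : ‖G w i‖ ≤ max C 0 := ((norm_le_pi_norm _ i).trans h3).trans (le_max_left _ _)
      calc ‖f w‖ = ‖(f w - G w i) + G w i‖ := by congr 1; ring
        _ ≤ ‖f w - G w i‖ + ‖G w i‖ := norm_add_le _ _
        _ ≤ max C 0 + ε / 2 := by linarith
    have h5 := hfe y (mem_insert _ _)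
    calc ‖G y i‖ = ‖f y - (f y - G y i)‖ := by congr 1; ring
      _ ≤ ‖f y‖ + ‖f y - G y i‖ := norm_sub_le _ _
      _ ≤ max C 0 + ε := by linarith
  have hcl : IsClosed (F '' closedBall 0 (max C 0)) :=
    ((isCompact_closedBall _ _).image hF.continuous).isClosed
  have hmem : x ∈ F '' closedBall 0 (max C 0) := by
    refine hcl.closure_subset_iff.2 ?_ (show x ∈ closure (Ω ∩ ball x δ) from ?_)
    · rintro y ⟨hyΩ, hyb⟩
      have hy := hbound y hyΩ hyb
      rw [← hr] at hyΩ
      obtain ⟨z, rfl⟩ := hyΩ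
      rw [hGF] at hy
      exact ⟨z, by rwa [mem_closedBall_zero_iff], rfl⟩
    · rw [mem_closure_iff_nhds]
      intro t ht
      obtain ⟨y, hy1, hy2⟩ := mem_closure_iff_nhds.1 hxc _ (inter_mem ht (ball_mem_nhds x hδ))
      exact ⟨y, hy1.1, hy2, hy1.2⟩
  obtain ⟨z, _, hz⟩ := hmem
  exact hxn (hr ▸ ⟨z, hz⟩)

end Helper853.Mid
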